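import Pool.Agent.FTO.Final

/-!
A necessary and sufficient condition for the existence of a finite-to-one factor code between
mixing shifts of finite type (that is, of a factor code, when the entropies are equal).
-/

namespace Pool.Agent.Results.MP_59dda0_an.Criterion

open Pool.Agent.FT

/-- Let `A`, `B` be primitive and let `X_A` and `X_B` have the same entropy. There is a factor
code from `X_A` onto `X_B` if and only if
* the dimension group of `B` is a quotient `M / N` of pure invariant subgroups `N ≤ M` of the
  dimension group of `A` such that the traces of `A ^ n` on `N` and on `M` vanish whenever `X_B`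
  has no point of period `n`, and
* `X_B` has a point of period `n` whenever `X_A` has one. -/
theorem result {a b : ℕ} (A : Matrix (Fin a) (Fin a) ℕ) (B : Matrix (Fin b) (Fin b) ℕ)
    (hA : IsPrimitive A) (hB : IsPrimitive B)
    (hent : ∃ h, HasEntropy (edgeShift A) h ∧ HasEntropy (edgeShift B) h) :
    (∃ φ : edgeShift A → edgeShift B, IsFactorCode φ) ↔
      DimTraceCondition A B ∧ PeriodCondition (edgeShift A) (edgeShift B) :=
  Pool.Agent.FTO.fto_iff A B hA hB hent

end Pool.Agent.Results.MP_59dda0_an.Criterion
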