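import Pool.Agent.DEC.Final

/-!
# Finite-to-one factor codes between mixing shifts of finite type can be decided (MP_59dda0_an)

There is one total computable function on pairs of finite presentations (alphabet size, list of
forbidden words) which, for all presentations of mixing shifts of finite type, says whether there
is a finite-to-one factor code from the first onto the second. This answers the question in the
positive.

The proof: a finite-to-one factor code between mixing shifts of finite type exists if and only if
the entropies are equal and the condition of the hand-in `Criterion` on the dimension groups with
traces holds; both this condition and its negation, on pairs of matrices of equal entropy, are
shown to be recursively enumerable.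
-/

set_option autoImplicit false

namespace Pool.Agent.Results.MP_59dda0_an.Decidable

open Pool.Agent.DEC

/-- There is a total computable function which decides, for every pair of presentations of mixing
shifts of finite type, whether a finite-to-one factor code exists. -/
theorem result :
    ∃ f : Pres × Pres → Bool, Computable f ∧
      ∀ P Q : Pres, IsMixing (sft P) → IsMixing (sft Q) →
        (f (P, Q) = true ↔ FiniteFactor (sft P) (sft Q)) :=
  Pool.Agent.DEC.final

end Pool.Agent.Results.MP_59dda0_an.Decidable
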