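import Pool.Agent.FT.Main
import Pool.Agent.FT.DimEx
import Pool.Agent.FT.DimExT
import Pool.Agent.FT.Period
import Pool.Agent.FT.Ent

/-!
The dimension group condition together with the periodic point condition is not sufficient for
the existence of a factor code between mixing shifts of finite type of equal entropy.
-/

namespace Pool.Agent.Results.MP_59dda0_an.NotSufficient

open Pool.Agent.FT

/-- The primitive matrices `exA` (5 x 5) and `exB` (3 x 3) have entropy `log 5`, satisfy the
dimension condition (with order; for the matrices and for their transposes, that is, for both
directions of time) and the periodic point condition, but there is no factor code from the edge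
shift of `exA` onto the edge shift of `exB`. -/
theorem result :
    IsPrimitive exA ∧ IsPrimitive exB ∧
    HasEntropy (edgeShift exA) (Real.log 5) ∧ HasEntropy (edgeShift exB) (Real.log 5) ∧
    DimCondition exA exB ∧ DimCondition exA.transpose exB.transpose ∧
    PeriodCondition (edgeShift exA) (edgeShift exB) ∧
    ¬ ∃ φ : edgeShift exA → edgeShift exB, IsFactorCode φ := by
  have hEA : HasEntropy (edgeShift exA) (Real.log 5) := by
    have := hasEntropy_of_eigenvector prim_exA (fun _ => 1) (by intro i; norm_num) 5 (by norm_num)
      (by decide)
    exact_mod_cast this
  have hEB : HasEntropy (edgeShift exB) (Real.log 5) := by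
    have := hasEntropy_of_eigenvector prim_exB ![1, 2, 1] (by decide) 5 (by norm_num)
      (by decide)
    exact_mod_cast this
  exact ⟨prim_exA, prim_exB, hEA, hEB, dim_example, dim_exampleT, period_example,
    fun h => not_traceDim (trace_condition exA exB prim_exA prim_exB ⟨_, hEA, hEB⟩ h)⟩

end Pool.Agent.Results.MP_59dda0_an.NotSufficient
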